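import Pool.Agent.H408Z.Fac.D

/-!
# No infinite cardinal has factorial below aleph-null times itself

We show that in every (possibly nonstandard) model of Zermelo set theory, in particular in every
model of ZF, no infinite set `a` satisfies `|Sym(a)| < |ω × a|`. By the completeness theorem, ZF
proves that no infinite cardinal satisfies `a! < ℵ₀ · a`.

Outline. Let `Sym(a)` inject into `ω × a` and suppose that `a` is infinite and Dedekind finite.
Transpositions and three-cycles give an injection `j` of `a × a` into `ω × a`. The closure
`D(e, y)` of two points under `j` and its inverses is canonically enumerated, hence finite. Call
`x`, `x'` equivalent over `e` if `D(e, x) = D(e, x')`. If for some `e` there are nontrivial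
classes with arbitrarily large closure, then the map sending a point to the first other point of
its class, restricted to its periodic points, gives an injection of the power set of `ω` into
`Sym(a)`, hence into `ω × a`, and a diagonal argument makes `a` Dedekind infinite. Otherwise `a` is
an increasing union of a sequence of finite sets whose closures have unique generators, and again
`a` is Dedekind infinite. Finally, for Dedekind infinite `a` transpositions inject `ω × a` into
`Sym(a)`.
-/

namespace Pool.Agent.Results.MP_113a4a_lc.AFactorialNotBelow

open Pool.Agent.Helper672.Plain Pool.Agent.H408Z.Fac.Card

universe u

/-- In every model of Zermelo set theory (in particular in every model of ZF): if `w` is `ω`,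
`a` is infinite, `s` is the set of all bijections of `a` and `p` is `ω × a`, then `|s| < |p|`
fails. -/
theorem result (M : Type u) [LSet.Structure M] [Zermelo M] (w a s p : M) (hw : IsOmega w)
    (ha : IsInfinite w a) (hs : IsSym s a) (hp : IsProd p w a) : ¬ CardLt s p :=
  fun h => h.2 (Pool.Agent.H408Z.Fac.main hw hp hs ha h.1)

end Pool.Agent.Results.MP_113a4a_lc.AFactorialNotBelow
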